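import Mathlib
import Pool.Agent.N178.MU.MB

/-!
# Murre's conjecture (D) for motives of abelian type: the proofs
-/

set_option linter.unusedSectionVars false

namespace Pool.Agent.U606.MD

open Module Pool.Agent.Y90 Pool.Agent.R915 Pool.Agent.N178.BL Pool.Agent.N178.GB
open Pool.Agent.N178.HX (GHC)
open Pool.Agent.N178.MU

noncomputable section

/-- Murre's conjecture (D) for the cycles of dimension `i` on the motive `M = (X, p)` and the
Chow–Künneth decomposition `P` of `M`: the group `F^1 CH_i(M)` consists of the homologically trivial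
cycles of dimension `i` on `M`. The cycles on `X` are the correspondences from the point `O` to `X`. -/
def MurreD {C : ChowTheory} (O : AV) {X : AV} (p : C.Co X X) (P : ℕ → C.Co X X) (i : ℤ) : Prop :=
  ∀ z : C.Co O X, C.IsDeg i z → C.o p z = z → (F p P i 1 z ↔ ∀ ω, C.pb z ω = 0)

variable {C : ChowTheory} (K : Projectors C) {X O : AV} {p : C.Co X X} {P : ℕ → C.Co X X}

include K in
/-- The vanishing for the weights `m ≤ i + 1`, without any hypothesis on the abelian variety. -/
theorem vanish_small (hO : finrank ℚ O.H = 0) (h : IsChowKunneth p P) {i : ℤ} {m : ℕ}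
    (hm : m ≤ 2 * i) (hm' : m ≤ i + 1) {z : C.Co O X} (hz : C.IsDeg i z)
    (h0 : m = 2 * i → ∀ ω, C.pb z ω = 0) : C.o (P m) z = 0 := by
  have hd : C.IsDeg 0 (C.o (P m) (K.pr X m)) := by
    have h1 := C.deg_o (K.pr X m) (P m) (K.deg X m) (h.1 m).1
    rwa [zero_add] at h1
  obtain ⟨A, B, hA, hB, h2⟩ := through (h.1 m) hd fun ω => by
    rw [C.pb_o]
    funext l
    by_cases hl : l = m
    · subst hl
      exact (K.kunneth X l _).1
    · rw [(K.kunneth X m _).2 l hl, h.2.2.2 m l hl ω]
  have hBz : C.IsDeg i (C.o B z) := by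
    have h3 := C.deg_o z B hz hB
    rwa [add_zero] at h3
  have h4 : C.o (K.pr X m) (C.o B z) = 0 := pr_zero K hO hBz hm' hm fun h3 ω => by
    rw [C.pb_o, h0 h3]
  rw [h2, ← C.assoc, ← C.assoc, ← C.assoc, h4, o_zero, o_zero]

include K in
/-- (D) follows from the vanishing of the parts of weight at most `2 i`. -/
theorem murreD_of (hO : finrank ℚ O.H = 0) (h : IsChowKunneth p P) {i : ℤ}
    (hv : ∀ z : C.Co O X, C.IsDeg i z → (∀ ω, C.pb z ω = 0) → ∀ m : ℕ, (m : ℤ) ≤ 2 * i →
      C.o (P m) z = 0) : MurreD O p P i := by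
  intro z hz hpz
  refine ⟨fun hF ω => ?_, fun h0 => ⟨hz, hpz, fun m hm => hv z hz h0 m (by push_cast at hm; omega)⟩⟩
  obtain ⟨N, hN⟩ := sum_part h hpz
  rw [hN, pb_sum]
  refine Finset.sum_eq_zero fun m _ => ?_
  by_cases hm : (m : ℤ) = 2 * i
  · rw [hF.2.2 m (by push_cast; omega), zero_pb]
  · exact hom_part K hO h hm hz ω

include K in
/-- (D), first case: there is no cohomology in the degrees between `i + 2` and `2 i`. -/
theorem murreD_gap (hO : finrank ℚ O.H = 0) (h : IsChowKunneth p P) {i : ℤ}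
    (hH : ∀ s t : ℕ, i + 2 ≤ s + t → (s + t : ℤ) ≤ 2 * i → HodgeZero p s t) :
    MurreD O p P i := by
  refine murreD_of K hO h fun z hz h0 m hm => ?_
  rcases le_or_gt (m : ℤ) (i + 1) with h1 | h1
  · exact vanish_small K hO h hm h1 hz fun _ => h0
  · rw [part_zero h fun s t hst => hH s t (by omega) (by omega), zero_o]

include K in
/-- (D), second case: the generalized Hodge conjecture. -/
theorem murreD_ghc (hG : GHC C.alg X) (hO : finrank ℚ O.H = 0) (h : IsChowKunneth p P) {i : ℤ}
    (hH : ∀ s t : ℕ, (s + t : ℤ) ≤ 2 * i → (i + 2 ≤ s ∨ i + 2 ≤ t) → HodgeZero p s t) :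
    MurreD O p P i :=
  murreD_of K hO h fun _z hz h0 _m hm =>
    vanish K hG hO h hm (fun s t hst h1 => hH s t (by omega) h1) hz fun _ => h0

end

end Pool.Agent.U606.MD
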